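import Pool.Agent.H62.HE.Defs

/-!
# Larsen's question for hyperelliptic Jacobians (MP_6b5a9a_nt): module EX
-/

open Polynomial

namespace Pool.Agent.H41.HE

open Pool.Agent.H62.HE

universe u

theorem natDegree_lt_of_mem {k : Type u} [Field k] {m : ℕ} (hm : 0 < m) (p : degreeLT k m) :
    (p : k[X]).natDegree < m := by
  by_cases h : (p : k[X]) = 0
  · rw [h]; simpa using hm
  · rw [natDegree_lt_iff_degree_lt h]
    exact mem_degreeLT.1 p.2

theorem ex : T_EX.{u} := by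
  intro k _ U W g hU
  have hU0 : U ≠ 0 := by rintro rfl; simp at hU
  obtain ⟨d, hd⟩ : ∃ d, d = U.natDegree := ⟨_, rfl⟩
  rw [← hd] at hU ⊢
  obtain ⟨U', hU'⟩ : ∃ U' : k[X], U' = U * C U.leadingCoeff⁻¹ := ⟨_, rfl⟩
  have hlc : U.leadingCoeff ≠ 0 := leadingCoeff_ne_zero.2 hU0
  have hm : U'.Monic := by rw [hU']; exact monic_mul_leadingCoeff_inv hU0
  have hd' : U'.natDegree = d := by
    rw [hU', natDegree_mul_C (inv_ne_zero hlc), hd]
  have hdvd : U ∣ U' := by rw [hU']; exact Dvd.intro _ rfl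
  have hdvd' : U' ∣ U := by
    refine ⟨C U.leadingCoeff, ?_⟩
    rw [hU', mul_assoc, ← C_mul, inv_mul_cancel₀ hlc, C_1, mul_one]
  let φ : (degreeLT k (d / 2 + 1) × degreeLT k ((d - 1) / 2 + 1)) →ₗ[k] k[X] :=
    (LinearMap.mulLeft k (X ^ g)) ∘ₗ (degreeLT k (d / 2 + 1)).subtype ∘ₗ LinearMap.fst k _ _ +
    (LinearMap.mulRight k W) ∘ₗ (degreeLT k ((d - 1) / 2 + 1)).subtype ∘ₗ LinearMap.snd k _ _
  let ψ : k[X] →ₗ[k] (Fin d → k) := LinearMap.pi (fun i => lcoeff k i ∘ₗ modByMonicHom U')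
  have hker : LinearMap.ker (ψ ∘ₗ φ) ≠ ⊥ := by
    apply LinearMap.ker_ne_bot_of_finrank_lt
    rw [Module.finrank_prod, Module.finrank_fin_fun,
      LinearEquiv.finrank_eq (degreeLTEquiv k (d / 2 + 1)),
      LinearEquiv.finrank_eq (degreeLTEquiv k ((d - 1) / 2 + 1)), Module.finrank_fin_fun,
      Module.finrank_fin_fun]
    omega
  obtain ⟨⟨s0, s1⟩, hs, hs0⟩ := Submodule.exists_mem_ne_zero_of_ne_bot hker
  refine ⟨s0, s1, ?_, ?_, ?_, ?_⟩
  · by_contra hcon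
    push Not at hcon
    apply hs0
    rw [Prod.mk_eq_zero]
    exact ⟨Subtype.ext hcon.1, Subtype.ext hcon.2⟩
  · refine hdvd.trans ?_
    rw [← modByMonic_eq_zero_iff_dvd hm]
    have h1 : ψ (φ (s0, s1)) = 0 := hs
    have h2 : φ (s0, s1) = X ^ g * (s0 : k[X]) + (s1 : k[X]) * W := rfl
    rw [h2] at h1
    ext i
    rw [coeff_zero]
    by_cases hi : i < d
    · exact congrFun h1 ⟨i, hi⟩
    · apply coeff_eq_zero_of_degree_lt
      refine (degree_modByMonic_lt _ hm).trans_le ?_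
      rw [degree_eq_natDegree hm.ne_zero, hd']
      exact_mod_cast not_lt.1 hi
  · have := natDegree_lt_of_mem (Nat.succ_pos _) s0
    omega
  · have := natDegree_lt_of_mem (Nat.succ_pos _) s1
    omega

end Pool.Agent.H41.HE
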