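import Pool.Agent.H62.HE.Defs

/-!
# Larsen's question for hyperelliptic Jacobians (MP_6b5a9a_nt): module NL (the norm lemma)
-/

open Polynomial

namespace Pool.Agent.H41.HE

open Pool.Agent.H62.HE

universe u

/-- the statement over the residue field -/
theorem nl_res {κ : Type*} [Field κ] (g e : ℕ) (he : e ≤ g) (F A B Q : κ[X]) (hF : F.Monic)
    (hFd : F.natDegree = 2 * g + 1) (h : X ^ (2 * e) * A ^ 2 - F * B ^ 2 = Q)
    (hQ : Q.natDegree ≤ 2 * e) (hab : A ≠ 0 ∨ B ≠ 0) : B = 0 ∧ A ≠ 0 ∧ A.natDegree = 0 := by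
  have hA2 : A ≠ 0 → (X ^ (2 * e) * A ^ 2).natDegree = 2 * e + 2 * A.natDegree := by
    intro hA
    rw [natDegree_mul (pow_ne_zero _ X_ne_zero) (pow_ne_zero _ hA), natDegree_X_pow,
      natDegree_pow]
  have hB2 : B ≠ 0 → (F * B ^ 2).natDegree = 2 * g + 1 + 2 * B.natDegree := by
    intro hB
    rw [natDegree_mul hF.ne_zero (pow_ne_zero _ hB), hFd, natDegree_pow]
  by_cases hB : B = 0
  · have hA : A ≠ 0 := hab.resolve_right (fun h => h hB)
    refine ⟨hB, hA, ?_⟩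
    rw [hB, zero_pow two_ne_zero, mul_zero, sub_zero] at h
    have h1 := hA2 hA
    rw [h] at h1
    omega
  · exfalso
    have h2 := hB2 hB
    by_cases hA : A = 0
    · rw [hA, zero_pow two_ne_zero, mul_zero, zero_sub] at h
      rw [← h, natDegree_neg, h2] at hQ
      omega
    · have h1 := hA2 hA
      rcases lt_trichotomy (X ^ (2 * e) * A ^ 2).natDegree (F * B ^ 2).natDegree with hlt | heq | hlt
      · have := natDegree_sub_eq_right_of_natDegree_lt hlt
        rw [h] at this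
        omega
      · omega
      · have := natDegree_sub_eq_left_of_natDegree_lt hlt
        rw [h] at this
        omega

section val

variable {k : Type u} [Field k] {Γ₀ : Type u} [LinearOrderedCommGroupWithZero Γ₀]
  (v : Valuation k Γ₀)

theorem exists_lift (p : k[X]) (hp : ∀ i, v (p.coeff i) ≤ 1) :
    ∃ P : v.valuationSubring[X], P.map v.valuationSubring.subtype = p := by
  rw [← mem_lifts, lifts_iff_coeff_lifts]
  intro n
  exact ⟨⟨p.coeff n, hp n⟩, rfl⟩

theorem res_eq_zero_iff (x : v.valuationSubring) :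
    IsLocalRing.residue v.valuationSubring x = 0 ↔ v (x : k) < 1 := by
  rw [IsLocalRing.residue_eq_zero_iff, IsLocalRing.mem_maximalIdeal, mem_nonunits_iff,
    (Valuation.valuationSubring.integers v).isUnit_iff_valuation_eq_one]
  have h : v (x : k) ≤ 1 := x.2
  constructor
  · intro h1; exact lt_of_le_of_ne h h1
  · intro h1; exact h1.ne

/-- integrality of the cofactor -/
theorem cofactor_le (U q : k[X]) (hU0 : U.coeff 0 = 1) (hU : ∀ i, 1 ≤ i → v (U.coeff i) < 1)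
    (h : ∀ i, v ((U * q).coeff i) ≤ 1) : ∀ i, v (q.coeff i) ≤ 1 := by
  by_contra hcon
  push Not at hcon
  obtain ⟨i1, hi1⟩ := hcon
  have hne : q.support.Nonempty := by
    refine ⟨i1, ?_⟩
    rw [mem_support_iff]
    intro h0
    rw [h0, map_zero] at hi1
    exact absurd hi1 (not_lt.2 zero_le)
  obtain ⟨i0, hi0, hmax⟩ := q.support.exists_max_image (fun i => v (q.coeff i)) hne
  have hmax' : ∀ j, v (q.coeff j) ≤ v (q.coeff i0) := by
    intro j
    by_cases hj : j ∈ q.support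
    · exact hmax j hj
    · rw [notMem_support_iff.1 hj, map_zero]; exact zero_le
  have hgt : 1 < v (q.coeff i0) := hi1.trans_le (hmax' i1)
  have hpos : 0 < v (q.coeff i0) := zero_lt_one.trans hgt
  have h1 : (U * q).coeff i0 = q.coeff i0 +
      ∑ x ∈ (Finset.HasAntidiagonal.antidiagonal i0).erase (0, i0), U.coeff x.1 * q.coeff x.2 := by
    rw [coeff_mul, ← Finset.add_sum_erase _ _ (show (0, i0) ∈ Finset.HasAntidiagonal.antidiagonal i0 by simp), hU0,
      one_mul]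
  have h2 : v (∑ x ∈ (Finset.HasAntidiagonal.antidiagonal i0).erase (0, i0), U.coeff x.1 * q.coeff x.2) <
      v (q.coeff i0) := by
    apply Valuation.map_sum_lt _ hpos.ne'
    intro x hx
    rw [Finset.mem_erase, Finset.HasAntidiagonal.mem_antidiagonal] at hx
    have hx1 : 1 ≤ x.1 := by
      rcases Nat.eq_zero_or_pos x.1 with h0 | h0
      · exfalso
        apply hx.1
        ext
        · exact h0
        · simp only; omega
      · exact h0
    rw [map_mul]
    calc v (U.coeff x.1) * v (q.coeff x.2) ≤ v (U.coeff x.1) * v (q.coeff i0) := by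
          gcongr; exact hmax' _
      _ < 1 * v (q.coeff i0) := by
          exact mul_lt_mul_of_pos_right (hU _ hx1) hpos
      _ = v (q.coeff i0) := one_mul _
  have h3 : v ((U * q).coeff i0) = v (q.coeff i0) := by
    rw [h1, add_comm]; exact Valuation.map_add_eq_of_lt_right _ h2
  exact absurd (h i0) (not_le.2 (by rw [h3]; exact hgt))

theorem coeff_mul_le (p r : k[X]) (hp : ∀ i, v (p.coeff i) ≤ 1) (hr : ∀ i, v (r.coeff i) ≤ 1) :
    ∀ i, v ((p * r).coeff i) ≤ 1 := by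
  intro i
  rw [coeff_mul]
  apply Valuation.map_sum_le
  intro x _
  rw [map_mul]
  exact mul_le_one' (hp _) (hr _)

/-- the case `μ = 1` with normalised `a`, `b` -/
theorem nl_one (g e : ℕ) (f : k[X]) (hf : f.Monic) (hfd : f.natDegree = 2 * g + 1)
    (hfi : ∀ i, v (f.coeff i) ≤ 1) (he : e ≤ g) (U a b q : k[X]) (hU0 : U.coeff 0 = 1)
    (hU : ∀ i, 1 ≤ i → v (U.coeff i) < 1)
    (h : X ^ (2 * e) * a ^ 2 - f * b ^ 2 = U * q) (hq : q.natDegree ≤ 2 * e)
    (ha : ∀ i, v (a.coeff i) ≤ 1) (hb : ∀ i, v (b.coeff i) ≤ 1)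
    (hab : (∃ i, v (a.coeff i) = 1) ∨ ∃ i, v (b.coeff i) = 1) :
    v (a.coeff 0) = 1 ∧ (∀ i, 1 ≤ i → v (a.coeff i) < 1) ∧ ∀ i, v (b.coeff i) < 1 := by
  have hXi : ∀ i, v ((X ^ (2 * e) : k[X]).coeff i) ≤ 1 := by
    intro i
    rw [coeff_X_pow]
    split_ifs <;> simp
  have hL : ∀ i, v ((U * q).coeff i) ≤ 1 := by
    intro i
    rw [← h, coeff_sub, sq, sq]
    exact (Valuation.map_sub _ _ _).trans (max_le
      (coeff_mul_le v _ _ hXi (coeff_mul_le v _ _ ha ha) i)
      (coeff_mul_le v _ _ hfi (coeff_mul_le v _ _ hb hb) i))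
  have hqi := cofactor_le v U q hU0 hU hL
  have hUi : ∀ i, v (U.coeff i) ≤ 1 := by
    intro i
    rcases Nat.eq_zero_or_pos i with rfl | hi
    · rw [hU0, map_one]
    · exact (hU i hi).le
  obtain ⟨F, rfl⟩ := exists_lift v f hfi
  obtain ⟨U, rfl⟩ := exists_lift v U hUi
  obtain ⟨A, rfl⟩ := exists_lift v a ha
  obtain ⟨B, rfl⟩ := exists_lift v b hb
  obtain ⟨Q, rfl⟩ := exists_lift v q hqi
  have hinj : Function.Injective v.valuationSubring.subtype := Subtype.val_injective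
  have hinj' := map_injective _ hinj
  have hFm : F.Monic := hinj.monic_map_iff.2 hf
  have hFd : F.natDegree = 2 * g + 1 := by
    rw [← hfd, natDegree_map_eq_of_injective hinj]
  have hEq : X ^ (2 * e) * A ^ 2 - F * B ^ 2 = U * Q := by
    apply hinj'
    simpa using h
  have hQd : Q.natDegree ≤ 2 * e := by
    rw [natDegree_map_eq_of_injective hinj] at hq
    exact hq
  let ρ := IsLocalRing.residue v.valuationSubring
  have hUr : U.map ρ = 1 := by
    ext i
    rw [coeff_map, coeff_one]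
    split_ifs with hi
    · subst hi
      have : U.coeff 0 = 1 := by
        apply hinj
        rw [← coeff_map, hU0, map_one]
      rw [this, map_one]
    · have h1 := hU i (Nat.one_le_iff_ne_zero.2 (fun h0 => hi h0))
      rw [coeff_map] at h1
      exact (res_eq_zero_iff v _).2 h1
  have hEq2 : X ^ (2 * e) * (A.map ρ) ^ 2 - (F.map ρ) * (B.map ρ) ^ 2 = Q.map ρ := by
    have := congrArg (Polynomial.map ρ) hEq
    rw [Polynomial.map_mul, hUr, one_mul] at this
    rw [← this]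
    simp
  have hFrd : (F.map ρ).natDegree = 2 * g + 1 := by rw [hFm.natDegree_map, hFd]
  have hcoef : ∀ (P : v.valuationSubring[X]) (i : ℕ), v ((P.map v.valuationSubring.subtype).coeff i) < 1 ↔
      (P.map ρ).coeff i = 0 := by
    intro P i
    rw [coeff_map, coeff_map]
    exact (res_eq_zero_iff v _).symm
  have hor : A.map ρ ≠ 0 ∨ B.map ρ ≠ 0 := by
    rcases hab with ⟨i, hi⟩ | ⟨i, hi⟩
    · left
      intro h0
      have : (A.map ρ).coeff i = 0 := by rw [h0, coeff_zero]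
      rw [← hcoef, hi] at this
      exact lt_irrefl _ this
    · right
      intro h0
      have : (B.map ρ).coeff i = 0 := by rw [h0, coeff_zero]
      rw [← hcoef, hi] at this
      exact lt_irrefl _ this
  obtain ⟨k1, k2, k3⟩ := nl_res g e he _ _ _ _ (hFm.map ρ) hFrd hEq2
    ((natDegree_map_le).trans hQd) hor
  refine ⟨?_, ?_, ?_⟩
  · by_contra hne
    have hlt : v ((A.map v.valuationSubring.subtype).coeff 0) < 1 := lt_of_le_of_ne (ha 0) hne
    rw [hcoef] at hlt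
    apply k2
    rw [eq_C_of_natDegree_eq_zero k3, hlt, C_0]
  · intro i hi
    rw [hcoef]
    apply coeff_eq_zero_of_natDegree_lt
    omega
  · intro i
    rw [hcoef, k1, coeff_zero]

/-- the case `μ = 1` -/
theorem nl_one' (g e : ℕ) (f : k[X]) (hf : f.Monic) (hfd : f.natDegree = 2 * g + 1)
    (hfi : ∀ i, v (f.coeff i) ≤ 1) (he : e ≤ g) (U a b q : k[X]) (hU0 : U.coeff 0 = 1)
    (hU : ∀ i, 1 ≤ i → v (U.coeff i) < 1)
    (h : X ^ (2 * e) * a ^ 2 - f * b ^ 2 = U * q) (hq : q.natDegree ≤ 2 * e)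
    (hab : a ≠ 0 ∨ b ≠ 0) :
    a.coeff 0 ≠ 0 ∧ (∀ i, 1 ≤ i → v (a.coeff i) < v (a.coeff 0)) ∧
      ∀ i, v (b.coeff i) < v (a.coeff 0) := by
  -- the maximum of the coefficients
  obtain ⟨z, hz0, hz1, hza, hzb⟩ : ∃ z : k, z ≠ 0 ∧
      ((∃ i, a.coeff i = z) ∨ ∃ i, b.coeff i = z) ∧ (∀ i, v (a.coeff i) ≤ v z) ∧
      ∀ i, v (b.coeff i) ≤ v z := by
    classical
    have hne : (a.coeffs ∪ b.coeffs).Nonempty := by
      rcases hab with h | h
      · obtain ⟨i, hi⟩ := support_nonempty.2 h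
        exact ⟨a.coeff i, Finset.mem_union_left _ (coeff_mem_coeffs (mem_support_iff.1 hi))⟩
      · obtain ⟨i, hi⟩ := support_nonempty.2 h
        exact ⟨b.coeff i, Finset.mem_union_right _ (coeff_mem_coeffs (mem_support_iff.1 hi))⟩
    obtain ⟨z, hz, hmax⟩ := (a.coeffs ∪ b.coeffs).exists_max_image v hne
    have key : ∀ p : k[X], p.coeffs ⊆ a.coeffs ∪ b.coeffs → ∀ i, v (p.coeff i) ≤ v z := by
      intro p hp i
      by_cases h0 : p.coeff i = 0
      · rw [h0, map_zero]; exact zero_le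
      · exact hmax _ (hp (coeff_mem_coeffs h0))
    have hz' : (∃ i, a.coeff i = z ∧ z ≠ 0) ∨ ∃ i, b.coeff i = z ∧ z ≠ 0 := by
      rcases Finset.mem_union.1 hz with h | h
      · left
        obtain ⟨i, hi, hi2⟩ := mem_coeffs_iff.1 h
        exact ⟨i, hi2.symm, by rw [hi2]; exact mem_support_iff.1 hi⟩
      · right
        obtain ⟨i, hi, hi2⟩ := mem_coeffs_iff.1 h
        exact ⟨i, hi2.symm, by rw [hi2]; exact mem_support_iff.1 hi⟩
    refine ⟨z, ?_, ?_, key a Finset.subset_union_left, key b Finset.subset_union_right⟩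
    · rcases hz' with ⟨i, -, h⟩ | ⟨i, -, h⟩ <;> exact h
    · rcases hz' with ⟨i, h, -⟩ | ⟨i, h, -⟩
      · exact Or.inl ⟨i, h⟩
      · exact Or.inr ⟨i, h⟩
  have hvz : v z ≠ 0 := (Valuation.ne_zero_iff v).2 hz0
  have hvz' : 0 < v z := zero_lt_iff.2 hvz
  have hC : (C z⁻¹ : k[X]) ^ 2 * C z ^ 2 = 1 := by
    rw [← mul_pow, ← C_mul, inv_mul_cancel₀ hz0, C_1, one_pow]
  have hle : ∀ (p : k[X]), (∀ i, v (p.coeff i) ≤ v z) → ∀ i, v ((C z⁻¹ * p).coeff i) ≤ 1 := by
    intro p hp i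
    rw [coeff_C_mul, map_mul, map_inv₀]
    calc (v z)⁻¹ * v (p.coeff i) ≤ (v z)⁻¹ * v z := by gcongr; exact hp i
      _ = 1 := inv_mul_cancel₀ hvz
  have hlt : ∀ (p : k[X]) (i : ℕ), v ((C z⁻¹ * p).coeff i) < 1 ↔ v (p.coeff i) < v z := by
    intro p i
    rw [coeff_C_mul, map_mul, map_inv₀, inv_mul_lt_iff₀ hvz', mul_one]
  have heq : ∀ (p : k[X]) (i : ℕ), v ((C z⁻¹ * p).coeff i) = 1 ↔ v (p.coeff i) = v z := by
    intro p i
    rw [coeff_C_mul, map_mul, map_inv₀, inv_mul_eq_one₀ hvz, eq_comm]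
  obtain ⟨h1, h2, h3⟩ := nl_one v g e f hf hfd hfi he U (C z⁻¹ * a) (C z⁻¹ * b) (C z⁻¹ ^ 2 * q)
    hU0 hU (by linear_combination (C z⁻¹ : k[X]) ^ 2 * h)
    (by rw [← C_pow]; exact (natDegree_C_mul_le _ _).trans hq) (hle a hza) (hle b hzb) (by
      rcases hz1 with ⟨i, hi⟩ | ⟨i, hi⟩
      · left; exact ⟨i, (heq a i).2 (by rw [hi])⟩
      · right; exact ⟨i, (heq b i).2 (by rw [hi])⟩)
  rw [heq] at h1
  refine ⟨?_, ?_, ?_⟩
  · intro h0
    rw [h0, map_zero] at h1
    exact hvz h1.symm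
  · intro i hi
    rw [h1]; exact (hlt a i).1 (h2 i hi)
  · intro i
    rw [h1]; exact (hlt b i).1 (h3 i)

end val

theorem nl : T_NL.{u} := by
  intro k _ Γ₀ _ v g e f hf hfd hfi he μ hμ hμ1 U a b q hU0 hU h hq hab
  have hvμ : v μ ≠ 0 := (Valuation.ne_zero_iff v).2 hμ
  have hvμ' : 0 < v μ := zero_lt_iff.2 hvμ
  -- substitution `X ↦ X / μ²`
  obtain ⟨S, hS⟩ : ∃ S : k[X] →+* k[X], ∀ p, S p = p.comp (C (μ ^ 2)⁻¹ * X) :=
    ⟨compRingHom (C (μ ^ 2)⁻¹ * X), fun p => rfl⟩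
  have hSc : ∀ (p : k[X]) (i : ℕ), (S p).coeff i = p.coeff i * ((μ ^ 2)⁻¹) ^ i := by
    intro p i
    rw [hS, comp_C_mul_X_coeff]
  have hSX : S X = C (μ ^ 2)⁻¹ * X := by rw [hS, X_comp]
  have hSd : ∀ p : k[X], (S p).natDegree ≤ p.natDegree := by
    intro p
    rw [natDegree_le_iff_coeff_eq_zero]
    intro N hN
    rw [hSc, coeff_eq_zero_of_natDegree_lt hN, zero_mul]
  have hvS : ∀ (p : k[X]) (i : ℕ), v ((S p).coeff i) = v (p.coeff i) * (v μ ^ (2 * i))⁻¹ := by
    intro p i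
    rw [hSc, map_mul, map_pow, map_inv₀, map_pow, inv_pow, ← pow_mul]
  have hnd : 2 * g + 1 = 2 * e + (2 * (g - e) + 1) := by omega
  have hcoefn : (C (μ ^ (2 * (2 * g + 1))) * S f).coeff (2 * g + 1) = 1 := by
    rw [coeff_C_mul, hSc, ← hfd, hf.coeff_natDegree, one_mul, inv_pow, ← pow_mul,
      mul_inv_cancel₀ (pow_ne_zero _ hμ)]
  have hdegn : (C (μ ^ (2 * (2 * g + 1))) * S f).natDegree ≤ 2 * g + 1 :=
    (natDegree_C_mul_le _ _).trans ((hSd f).trans hfd.le)
  have hCX : (C (μ ^ (4 * e)) : k[X]) * (C (μ ^ 2)⁻¹) ^ (2 * e) = 1 := by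
    rw [← C_pow, ← C_mul, inv_pow, ← pow_mul, show 2 * (2 * e) = 4 * e by ring,
      mul_inv_cancel₀ (pow_ne_zero _ hμ), C_1]
  have hCb : (C (μ ^ (2 * (2 * g + 1))) : k[X]) * (C (μ ^ (2 * (g - e) + 1))⁻¹) ^ 2 =
      C (μ ^ (4 * e)) := by
    rw [← C_pow, ← C_mul]
    congr 1
    rw [inv_pow, ← pow_mul, show 2 * (2 * g + 1) = 4 * e + (2 * (g - e) + 1) * 2 by omega,
      pow_add, mul_assoc, mul_inv_cancel₀ (pow_ne_zero _ hμ), mul_one]
  have hS1 := congrArg S h
  rw [map_sub, map_mul, map_mul, map_mul, map_pow, map_pow, map_pow, hSX, mul_pow] at hS1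
  obtain ⟨h1, h2, h3⟩ := nl_one' v g e (C (μ ^ (2 * (2 * g + 1))) * S f)
    (monic_of_natDegree_le_of_coeff_eq_one _ hdegn hcoefn)
    (natDegree_eq_of_le_of_coeff_ne_zero hdegn (by rw [hcoefn]; exact one_ne_zero))
    (by
      intro i
      by_cases hi : i ≤ 2 * g + 1
      · rw [coeff_C_mul, map_mul, hvS, map_pow]
        have e1 : v μ ^ (2 * (2 * g + 1)) = v μ ^ (2 * (2 * g + 1 - i)) * v μ ^ (2 * i) := by
          rw [← pow_add]; congr 1; omega
        rw [e1]
        have e2 : v μ ^ (2 * (2 * g + 1 - i)) * v μ ^ (2 * i) *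
            (v (f.coeff i) * (v μ ^ (2 * i))⁻¹) = v μ ^ (2 * (2 * g + 1 - i)) * v (f.coeff i) := by
          have : v μ ^ (2 * i) ≠ 0 := pow_ne_zero _ hvμ
          field_simp
        rw [e2]
        exact mul_le_one' (pow_le_one₀ zero_le hμ1) (hfi i)
      · rw [coeff_eq_zero_of_natDegree_lt (hdegn.trans_lt (not_le.1 hi)), map_zero]
        exact zero_le)
    he (S U) (S a) (C (μ ^ (2 * (g - e) + 1))⁻¹ * S b) (C (μ ^ (4 * e)) * S q)
    (by rw [hSc, hU0, pow_zero, mul_one])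
    (by
      intro i hi
      rw [hvS]
      have h0 : 0 < v μ ^ (2 * i) := pow_pos hvμ' _
      rw [← div_eq_mul_inv, div_lt_one₀ h0]
      exact hU i hi)
    (by
      linear_combination (C (μ ^ (4 * e)) : k[X]) * hS1 - X ^ (2 * e) * (S a) ^ 2 * hCX
        - S f * (S b) ^ 2 * hCb)
    ((natDegree_C_mul_le _ _).trans ((hSd q).trans hq))
    (by
      have hinj : ∀ p : k[X], S p = 0 → p = 0 := by
        intro p hp
        ext i
        have := hSc p i
        rw [hp, coeff_zero] at this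
        rw [coeff_zero]
        exact (mul_eq_zero.1 this.symm).resolve_right (pow_ne_zero _ (inv_ne_zero
          (pow_ne_zero _ hμ)))
      rcases hab with h0 | h0
      · exact Or.inl (fun h' => h0 (hinj a h'))
      · right
        intro h'
        rcases mul_eq_zero.1 h' with h'' | h''
        · rw [C_eq_zero] at h''
          exact inv_ne_zero (pow_ne_zero _ hμ) h''
        · exact h0 (hinj b h''))
  have ha0 : (S a).coeff 0 = a.coeff 0 := by rw [hSc, pow_zero, mul_one]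
  rw [ha0] at h1 h2 h3
  refine ⟨h1, ?_, ?_⟩
  · intro i hi
    have := h2 i hi
    rw [hvS, ← div_eq_mul_inv, div_lt_iff₀ (pow_pos hvμ' _)] at this
    exact this
  · intro i
    have := h3 i
    rw [coeff_C_mul, map_mul, hvS, map_inv₀, map_pow] at this
    have e1 : (v μ ^ (2 * (g - e) + 1))⁻¹ * (v (b.coeff i) * (v μ ^ (2 * i))⁻¹) =
        v (b.coeff i) / v μ ^ (2 * i + 2 * (g - e) + 1) := by
      rw [show 2 * i + 2 * (g - e) + 1 = (2 * (g - e) + 1) + 2 * i by ring,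
        pow_add (v μ) (2 * (g - e) + 1) (2 * i), div_eq_mul_inv, mul_inv]
      generalize (v μ ^ (2 * (g - e) + 1))⁻¹ = x
      generalize (v μ ^ (2 * i))⁻¹ = y
      ac_rfl
    rw [e1, div_lt_iff₀ (pow_pos hvμ' _)] at this
    exact this

end Pool.Agent.H41.HE
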